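import Mathlib

namespace Pool.Agent.Results.MP_b5f1b3_co.ClawFree

/-- `X` is an `s`-packing of `G`: any two distinct vertices of `X` are at distance greater
than `s` (vertices in different components are at infinite distance). -/
def IsPacking {V : Type*} (G : SimpleGraph V) (s : ℕ) (X : Set V) : Prop :=
  ∀ u ∈ X, ∀ v ∈ X, u ≠ v → (s : ℕ∞) < G.edist u v

/-- `G` has no induced subgraph isomorphic to the claw `K_{1,3}`. -/
def IsClawFree {V : Type*} (G : SimpleGraph V) : Prop :=
  IsEmpty (completeBipartiteGraph (Fin 1) (Fin 3) ↪g G)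

/-- elementary form of being claw-free -/
def CF {V : Type*} (G : SimpleGraph V) : Prop :=
  ∀ v x y z, G.Adj v x → G.Adj v y → G.Adj v z → x ≠ y → x ≠ z → y ≠ z →
    G.Adj x y ∨ G.Adj x z ∨ G.Adj y z

/-- every vertex has exactly three neighbours -/
def Cub {V : Type*} (G : SimpleGraph V) : Prop :=
  ∀ v, ∃ x y z, x ≠ y ∧ x ≠ z ∧ y ≠ z ∧ ∀ w, G.Adj v w ↔ w = x ∨ w = y ∨ w = z

theorem CF_of_isClawFree {V : Type*} {G : SimpleGraph V} (h : IsClawFree G) : CF G := by
  intro v x y z hx hy hz hxy hxz hyz
  by_contra hcon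
  push Not at hcon
  obtain ⟨h1, h2, h3⟩ := hcon
  apply h.false
  have hx' := hx.symm
  have hy' := hy.symm
  have hz' := hz.symm
  have h1' : ¬ G.Adj y x := fun h => h1 h.symm
  have h2' : ¬ G.Adj z x := fun h => h2 h.symm
  have h3' : ¬ G.Adj z y := fun h => h3 h.symm
  have e1 := hx.ne
  have e2 := hy.ne
  have e3 := hz.ne
  have hf : Function.Injective (Sum.elim (fun _ : Fin 1 => v) ![x, y, z]) := by
    rintro (a | a) (b | b) hab
    · congr 1; exact Subsingleton.elim _ _
    · fin_cases b <;> simp_all
    · fin_cases a <;> simp_all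
    · fin_cases a <;> fin_cases b <;> simp_all
  refine ⟨⟨_, hf⟩, ?_⟩
  intro a b
  change G.Adj (Sum.elim (fun _ : Fin 1 => v) ![x, y, z] a)
    (Sum.elim (fun _ : Fin 1 => v) ![x, y, z] b) ↔ _
  rcases a with a | a <;> rcases b with b | b
  · simp
  · fin_cases b <;> simp [hx, hy, hz]
  · fin_cases a <;> simp [hx', hy', hz']
  · fin_cases a <;> fin_cases b <;> simp [h1, h2, h3, h1', h2', h3']

theorem Cub_of_regular {V : Type*} {G : SimpleGraph V} [G.LocallyFinite]
    (h : G.IsRegularOfDegree 3) : Cub G := by
  classical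
  intro v
  have h1 := h v
  rw [← SimpleGraph.card_neighborFinset_eq_degree, Finset.card_eq_three] at h1
  obtain ⟨x, y, z, hxy, hxz, hyz, hs⟩ := h1
  refine ⟨x, y, z, hxy, hxz, hyz, fun w => ?_⟩
  rw [← SimpleGraph.mem_neighborFinset, hs]
  simp

/-- distance criterion through walks -/
theorem lt_edist {V : Type*} {G : SimpleGraph V} {u v : V} {s : ℕ}
    (h : ∀ w : G.Walk u v, w.length ≤ s → False) : (s : ℕ∞) < G.edist u v := by
  by_contra hcon
  push Not at hcon
  have hne : G.edist u v ≠ ⊤ := by
    intro ht
    rw [ht] at hcon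
    exact absurd hcon (by simp)
  obtain ⟨w, hw⟩ := SimpleGraph.exists_walk_of_edist_ne_top hne
  apply h w
  rw [← hw] at hcon
  exact_mod_cast hcon

/-- A kernel that respects a rank function. -/
theorem exists_kernel {Q : Type*} [Finite Q] (adj : Q → Q → Prop)
    (hs : ∀ a b, adj a b → adj b a) (hi : ∀ a, ¬ adj a a) (r : Q → ℕ) :
    ∃ B : Set Q, (∀ a ∈ B, ∀ b ∈ B, ¬ adj a b) ∧ ∀ a ∉ B, ∃ b ∈ B, adj a b ∧ r b ≤ r a := by
  classical
  have := Fintype.ofFinite Q
  have key : ∀ S : Finset Q, ∃ B : Finset Q, B ⊆ S ∧ (∀ a ∈ B, ∀ b ∈ B, ¬ adj a b) ∧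
      ∀ a ∈ S, a ∉ B → ∃ b ∈ B, adj a b ∧ r b ≤ r a := by
    intro S
    induction S using Finset.induction_on_max_value r with
    | empty => exact ⟨∅, by simp, by simp, by simp⟩
    | insert a s has hmax ih =>
      obtain ⟨B, hBs, hB1, hB2⟩ := ih
      by_cases h : ∃ b ∈ B, adj a b
      · refine ⟨B, hBs.trans (Finset.subset_insert _ _), hB1, ?_⟩
        intro x hx hxB
        rcases Finset.mem_insert.1 hx with rfl | hx
        · obtain ⟨b, hb, hab⟩ := h
          exact ⟨b, hb, hab, hmax b (hBs hb)⟩
        · exact hB2 x hx hxB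
      · push Not at h
        refine ⟨insert a B, Finset.insert_subset_insert _ hBs, ?_, ?_⟩
        · intro x hx y hy
          rcases Finset.mem_insert.1 hx with hxa | hx <;> rcases Finset.mem_insert.1 hy with hya | hy
          · rw [hxa, hya]; exact hi a
          · rw [hxa]; exact h y hy
          · rw [hya]; exact fun h' => h x hx (hs _ _ h')
          · exact hB1 x hx y hy
        · intro x hx hxB
          rcases Finset.mem_insert.1 hx with rfl | hx
          · exact absurd (Finset.mem_insert_self _ _) hxB
          · obtain ⟨b, hb, hab⟩ := hB2 x hx (fun h => hxB (Finset.mem_insert_of_mem h))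
            exact ⟨b, Finset.mem_insert_of_mem hb, hab⟩
  obtain ⟨B, -, h1, h2⟩ := key Finset.univ
  exact ⟨B, fun a ha b hb => h1 a (by simpa using ha) b (by simpa using hb),
    fun a ha => by simpa using h2 a (Finset.mem_univ a) (by simpa using ha)⟩

/-- Two-colouring along a rank function. -/
theorem rank_color {V : Type*} [Finite V] (adj : V → V → Prop) (hs : ∀ a b, adj a b → adj b a)
    (r : V → ℕ) (h0 : ∃ k : V → Bool, ∀ a b, adj a b → r a = 0 → r b = 0 → k a ≠ k b)
    (h1 : ∀ v, r v ≠ 0 → ∀ a b, adj v a → adj v b → r a ≤ r v → r b ≤ r v → a = b)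
    (hi : ∀ a, ¬ adj a a) :
    ∃ k : V → Bool, ∀ a b, adj a b → k a ≠ k b := by
  classical
  have := Fintype.ofFinite V
  have key : ∀ S : Finset V, ∃ k : V → Bool, ∀ a ∈ S, ∀ b ∈ S, adj a b → k a ≠ k b := by
    intro S
    induction S using Finset.induction_on_max_value r with
    | empty => exact ⟨fun _ => true, by simp⟩
    | insert a s has hmax ih =>
      obtain ⟨k, hk⟩ := ih
      by_cases hr : r a = 0
      · obtain ⟨k0, hk0⟩ := h0
        have hz : ∀ x ∈ insert a s, r x = 0 := by
          intro x hx
          rcases Finset.mem_insert.1 hx with rfl | hx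
          · exact hr
          · have := hmax x hx; omega
        exact ⟨k0, fun x hx y hy hxy => hk0 x y hxy (hz x hx) (hz y hy)⟩
      · by_cases h : ∃ b ∈ s, adj a b
        · obtain ⟨b, hb, hab⟩ := h
          have hub : ∀ y ∈ s, adj a y → y = b := fun y hy hay =>
            h1 a hr y b hay hab (hmax y hy) (hmax b hb)
          refine ⟨Function.update k a (! k b), ?_⟩
          intro x hx y hy hxy
          rcases Finset.mem_insert.1 hx with hxa | hx2 <;> rcases Finset.mem_insert.1 hy with hya | hy2
          · subst hxa; subst hya; exact absurd hxy (hi _)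
          · subst hxa
            have hyb := hub y hy2 hxy
            subst hyb
            have hne : y ≠ x := fun h => has (h ▸ hy2)
            simp [Function.update_of_ne hne]
          · subst hya
            have hyb := hub x hx2 (hs _ _ hxy)
            subst hyb
            have hne : x ≠ y := fun h => has (h ▸ hx2)
            simp [Function.update_of_ne hne]
          · have hnx : x ≠ a := fun h => has (h ▸ hx2)
            have hny : y ≠ a := fun h => has (h ▸ hy2)
            simp only [Function.update_of_ne hnx, Function.update_of_ne hny]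
            exact hk x hx2 y hy2 hxy
        · push Not at h
          refine ⟨k, ?_⟩
          intro x hx y hy hxy
          rcases Finset.mem_insert.1 hx with hxa | hx2 <;> rcases Finset.mem_insert.1 hy with hya | hy2
          · subst hxa; subst hya; exact absurd hxy (hi _)
          · subst hxa; exact absurd hxy (h y hy2)
          · subst hya; exact absurd (hs _ _ hxy) (h x hx2)
          · exact hk x hx2 y hy2 hxy
  obtain ⟨k, hk⟩ := key Finset.univ
  exact ⟨k, fun a b => hk a (Finset.mem_univ _) b (Finset.mem_univ _)⟩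

/-- The union of two matchings is two-colourable. -/
theorem matchings_color {V : Type*} [DecidableEq V] (n : ℕ) : ∀ (S : Finset V), S.card ≤ n →
    ∀ (M N : V → V → Prop), (∀ a b, M a b → M b a) → (∀ a b, N a b → N b a) →
    (∀ a, ¬ M a a) → (∀ a ∈ S, ∀ b ∈ S, ∀ c ∈ S, M a b → M a c → b = c) →
    (∀ a ∈ S, ∀ b ∈ S, ∀ c ∈ S, N a b → N a c → b = c) → (∀ a ∈ S, ¬ N a a) →
    ∃ k : V → Bool, ∀ a ∈ S, ∀ b ∈ S, (M a b ∨ N a b) → k a ≠ k b := by
  induction n with
  | zero =>
    intro S hS
    have : S = ∅ := by simpa using hS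
    subst this
    intro M N _ _ _ _ _ _
    exact ⟨fun _ => true, by simp⟩
  | succ n ih =>
    intro S hS M N hMs hNs hMi hM hN hNi
    by_cases hE : ∃ u ∈ S, ∃ v ∈ S, M u v
    · obtain ⟨u, hu, v, hv, huv⟩ := hE
      have huv' : u ≠ v := fun h => hMi v (h ▸ huv)
      set S' := (S.erase u).erase v with hS'
      have hmem : ∀ x, x ∈ S' ↔ x ≠ v ∧ x ≠ u ∧ x ∈ S := by
        intro x; simp [hS', Finset.mem_erase]
      have hcard : S'.card ≤ n := by
        have h1 : v ∈ S.erase u := Finset.mem_erase.2 ⟨huv'.symm, hv⟩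
        rw [hS', Finset.card_erase_of_mem h1, Finset.card_erase_of_mem hu]
        omega
      -- new second matching
      obtain ⟨k, hk⟩ := ih S' hcard M
        (fun a b => N a b ∨ (N a u ∧ N b v) ∨ (N a v ∧ N b u)) hMs
        (by
          rintro a b (h | h | h)
          · exact Or.inl (hNs _ _ h)
          · exact Or.inr (Or.inr ⟨h.2, h.1⟩)
          · exact Or.inr (Or.inl ⟨h.2, h.1⟩)) hMi
        (fun a ha b hb c hc => hM a ((hmem a).1 ha).2.2 b ((hmem b).1 hb).2.2 c ((hmem c).1 hc).2.2)
        (by
          intro a ha b hb c hc h1 h2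
          obtain ⟨ha1, ha2, ha3⟩ := (hmem a).1 ha
          obtain ⟨hb1, hb2, hb3⟩ := (hmem b).1 hb
          obtain ⟨hc1, hc2, hc3⟩ := (hmem c).1 hc
          rcases h1 with h1 | h1 | h1 <;> rcases h2 with h2 | h2 | h2
          · exact hN a ha3 b hb3 c hc3 h1 h2
          · exact absurd (hN a ha3 b hb3 u hu h1 h2.1) hb2
          · exact absurd (hN a ha3 b hb3 v hv h1 h2.1) hb1
          · exact absurd (hN a ha3 c hc3 u hu h2 h1.1) hc2
          · exact hN v hv b hb3 c hc3 (hNs _ _ h1.2) (hNs _ _ h2.2)
          · exact absurd (hN a ha3 u hu v hv h1.1 h2.1) huv'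
          · exact absurd (hN a ha3 c hc3 v hv h2 h1.1) hc1
          · exact absurd (hN a ha3 u hu v hv h2.1 h1.1) huv'
          · exact hN u hu b hb3 c hc3 (hNs _ _ h1.2) (hNs _ _ h2.2))
        (by
          intro a ha h
          obtain ⟨ha1, ha2, ha3⟩ := (hmem a).1 ha
          rcases h with h | h | h
          · exact hNi a ha3 h
          · exact huv' (hN a ha3 u hu v hv h.1 h.2)
          · exact huv' (hN a ha3 u hu v hv h.2 h.1))
      -- colours of u and v
      have hcu : ∃ cu : Bool, (∀ x ∈ S', N x u → k x ≠ cu) ∧ (∀ x ∈ S', N x v → k x ≠ !cu) := by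
        by_cases hxu : ∃ x ∈ S', N x u
        · obtain ⟨x, hx, hxu⟩ := hxu
          refine ⟨! k x, ?_, ?_⟩
          · intro y hy hyu
            have : y = x := hN u hu y ((hmem y).1 hy).2.2 x ((hmem x).1 hx).2.2
              (hNs _ _ hyu) (hNs _ _ hxu)
            subst this
            simp
          · intro y hy hyv
            have h := hk x hx y hy (Or.inr (Or.inr (Or.inl ⟨hxu, hyv⟩)))
            simpa using h.symm
        · push Not at hxu
          by_cases hxv : ∃ x ∈ S', N x v
          · obtain ⟨x, hx, hxv⟩ := hxv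
            refine ⟨k x, ?_, ?_⟩
            · intro y hy hyu
              exact absurd hyu (hxu y hy)
            · intro y hy hyv
              have : y = x := hN v hv y ((hmem y).1 hy).2.2 x ((hmem x).1 hx).2.2
                (hNs _ _ hyv) (hNs _ _ hxv)
              subst this
              simp
          · push Not at hxv
            exact ⟨true, fun y hy h => absurd h (hxu y hy), fun y hy h => absurd h (hxv y hy)⟩
      obtain ⟨cu, hcu1, hcu2⟩ := hcu
      have hMu : ∀ y ∈ S, M u y → y = v := fun y hy h => hM u hu y hy v hv h huv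
      have hMv : ∀ y ∈ S, M v y → y = u := fun y hy h => hM v hv y hy u hu h (hMs _ _ huv)
      set k' : V → Bool := fun x => if x = u then cu else if x = v then !cu else k x with hk'
      have hku : k' u = cu := by simp [hk']
      have hkv : k' v = !cu := by simp [hk', huv'.symm]
      have hkx : ∀ x, x ≠ u → x ≠ v → k' x = k x := by
        intro x h1 h2; simp [hk', h1, h2]
      refine ⟨k', ?_⟩
      have main : ∀ a ∈ S, ∀ b ∈ S, (M a b ∨ N a b) → a ≠ b → k' a ≠ k' b := by
        intro a ha b hb hab hne
        by_cases hau : a = u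
        · subst hau
          by_cases hbv : b = v
          · subst hbv; rw [hku, hkv]; simp
          · have hb' : b ∈ S' := (hmem b).2 ⟨hbv, Ne.symm hne, hb⟩
            rw [hku, hkx b (Ne.symm hne) hbv]
            rcases hab with hab | hab
            · exact absurd (hMu b hb hab) hbv
            · exact (hcu1 b hb' (hNs _ _ hab)).symm
        · by_cases hav : a = v
          · subst hav
            by_cases hbu : b = u
            · subst hbu; rw [hku, hkv]; simp
            · have hb' : b ∈ S' := (hmem b).2 ⟨Ne.symm hne, hbu, hb⟩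
              rw [hkv, hkx b hbu (Ne.symm hne)]
              rcases hab with hab | hab
              · exact absurd (hMv b hb hab) hbu
              · exact (hcu2 b hb' (hNs _ _ hab)).symm
          · have ha' : a ∈ S' := (hmem a).2 ⟨hav, hau, ha⟩
            rw [hkx a hau hav]
            by_cases hbu : b = u
            · subst hbu
              rw [hku]
              rcases hab with hab | hab
              · exact absurd (hMu a ha (hMs _ _ hab)) hav
              · exact hcu1 a ha' hab
            · by_cases hbv : b = v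
              · subst hbv
                rw [hkv]
                rcases hab with hab | hab
                · exact absurd (hMv a ha (hMs _ _ hab)) hau
                · exact hcu2 a ha' hab
              · have hb' : b ∈ S' := (hmem b).2 ⟨hbv, hbu, hb⟩
                rw [hkx b hbu hbv]
                exact hk a ha' b hb' (by tauto)
      intro a ha b hb hab
      by_cases hne : a = b
      · subst hne
        rcases hab with hab | hab
        · exact absurd hab (hMi a)
        · exact absurd hab (hNi a ha)
      · exact main a ha b hb hab hne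
    · push Not at hE
      by_cases hE2 : ∃ u ∈ S, ∃ v ∈ S, N u v
      · obtain ⟨u, hu, v, hv, huv⟩ := hE2
        have huv' : u ≠ v := fun h => hNi v hv (h ▸ huv)
        set S' := (S.erase u).erase v with hS'
        have hmem : ∀ x, x ∈ S' ↔ x ≠ v ∧ x ≠ u ∧ x ∈ S := by
          intro x; simp [hS', Finset.mem_erase]
        have hcard : S'.card ≤ n := by
          have h1 : v ∈ S.erase u := Finset.mem_erase.2 ⟨huv'.symm, hv⟩
          rw [hS', Finset.card_erase_of_mem h1, Finset.card_erase_of_mem hu]
          omega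
        obtain ⟨k, hk⟩ := ih S' hcard M N hMs hNs hMi
          (fun a ha b hb c hc => hM a ((hmem a).1 ha).2.2 b ((hmem b).1 hb).2.2 c ((hmem c).1 hc).2.2)
          (fun a ha b hb c hc => hN a ((hmem a).1 ha).2.2 b ((hmem b).1 hb).2.2 c ((hmem c).1 hc).2.2)
          (fun a ha => hNi a ((hmem a).1 ha).2.2)
        have hNu : ∀ y ∈ S, N u y → y = v := fun y hy h => hN u hu y hy v hv h huv
        have hNv : ∀ y ∈ S, N v y → y = u := fun y hy h => hN v hv y hy u hu h (hNs _ _ huv)
        refine ⟨fun x => if x = u then true else if x = v then false else k x, ?_⟩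
        intro a ha b hb hab
        rcases hab with hab | hab
        · exact absurd hab (hE a ha b hb)
        · by_cases hau : a = u
          · subst hau
            have := hNu b hb hab
            subst this
            simp [huv'.symm]
          · by_cases hav : a = v
            · subst hav
              have := hNv b hb hab
              subst this
              simp [huv'.symm]
            · have hbu : b ≠ u := by
                rintro rfl; exact hav (hNu a ha (hNs _ _ hab))
              have hbv : b ≠ v := by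
                rintro rfl; exact hau (hNv a ha (hNs _ _ hab))
              simp only [hau, hav, hbu, hbv, if_false]
              exact hk a ((hmem a).2 ⟨hav, hau, ha⟩) b ((hmem b).2 ⟨hbv, hbu, hb⟩) (Or.inr hab)
      · push Not at hE2
        exact ⟨fun _ => true, fun a ha b hb hab => by
          rcases hab with hab | hab
          · exact absurd hab (hE a ha b hb)
          · exact absurd hab (hE2 a ha b hb)⟩

section structural

variable {V : Type*} {G : SimpleGraph V}

/-- the graph of the edges that lie in a triangle -/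
def triG (G : SimpleGraph V) : SimpleGraph V where
  Adj u v := G.Adj u v ∧ ∃ w, G.Adj u w ∧ G.Adj v w
  symm := ⟨fun _ _ h => ⟨h.1.symm, h.2.imp fun _ hw => ⟨hw.2, hw.1⟩⟩⟩
  loopless := ⟨fun _ h => h.1.ne rfl⟩

/-- the unit of a vertex -/
def unt (G : SimpleGraph V) (v : V) : (triG G).ConnectedComponent :=
  (triG G).connectedComponentMk v

theorem closed_unit {W : Set V} (hW : ∀ u ∈ W, ∀ x, (triG G).Adj u x → x ∈ W) {v x : V}
    (hv : v ∈ W) (h : unt G x = unt G v) : x ∈ W := by
  have hr : (triG G).Reachable v x := (SimpleGraph.ConnectedComponent.eq.1 h).symm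
  obtain ⟨w⟩ := hr
  clear h
  induction w with
  | nil => exact hv
  | cons hadj _ ih => exact ih (hW _ hv _ hadj)

theorem unt_eq_of_tri {u v w : V} (h : G.Adj u v) (h1 : G.Adj u w) (h2 : G.Adj v w) :
    unt G u = unt G v := by
  apply SimpleGraph.ConnectedComponent.sound
  exact SimpleGraph.Adj.reachable (G := triG G) ⟨h, w, h1, h2⟩

theorem nbr_of (h3 : Cub G) {v p q r : V} (hp : G.Adj v p) (hq : G.Adj v q) (hr : G.Adj v r)
    (hpq : p ≠ q) (hpr : p ≠ r) (hqr : q ≠ r) (w : V) : G.Adj v w ↔ w = p ∨ w = q ∨ w = r := by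
  obtain ⟨x, y, z, hxy, hxz, hyz, hN⟩ := h3 v
  rw [hN] at hp hq hr
  rw [hN]
  grind

/-- the third neighbour -/
theorem nbr_third (h3 : Cub G) {v p q x y : V} (hp : G.Adj v p) (hq : G.Adj v q)
    (hpq : p ≠ q) (hx : G.Adj v x) (hy : G.Adj v y) (hxp : x ≠ p) (hxq : x ≠ q) (hyp : y ≠ p)
    (hyq : y ≠ q) : x = y := by
  have := nbr_of h3 hp hq hx hpq hxp.symm hxq.symm y
  grind

theorem out_unique (h3 : Cub G) (hc : CF G) {v x y : V} (hx : G.Adj v x)
    (hxu : unt G x ≠ unt G v) (hy : G.Adj v y) (hyu : unt G y ≠ unt G v) : x = y := by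
  obtain ⟨a, b, c, hab, hac, hbc, hN⟩ := h3 v
  have ha : G.Adj v a := (hN a).2 (by simp)
  have hb : G.Adj v b := (hN b).2 (by simp)
  have hc' : G.Adj v c := (hN c).2 (by simp)
  have key : ∀ p q, G.Adj v p → G.Adj v q → G.Adj p q → unt G p = unt G v :=
    fun p q hp hq hpq => unt_eq_of_tri hp.symm hpq hq
  rw [hN] at hx hy
  rcases hc v a b c ha hb hc' hab hac hbc with h | h | h
  · have h1 := key a b ha hb h
    have h2 := key b a hb ha h.symm
    grind
  · have h1 := key a c ha hc' h
    have h2 := key c a hc' ha h.symm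
    grind
  · have h1 := key b c hb hc' h
    have h2 := key c b hc' hb h.symm
    grind

/-- a unit with four vertices -/
structure Four (G : SimpleGraph V) (a b c d : V) : Prop where
  ne : a ≠ b
  cd : G.Adj c d
  ac : G.Adj a c
  ad : G.Adj a d
  bc : G.Adj b c
  bd : G.Adj b d

theorem Four.swap {a b c d : V} (h : Four G a b c d) : Four G b a c d :=
  ⟨h.ne.symm, h.cd, h.bc, h.bd, h.ac, h.ad⟩

theorem Four.swap' {a b c d : V} (h : Four G a b c d) : Four G a b d c :=
  ⟨h.ne, h.cd.symm, h.ad, h.ac, h.bd, h.bc⟩

theorem Four.nbr_c (h3 : Cub G) {a b c d : V} (h : Four G a b c d) (w : V) :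
    G.Adj c w ↔ w = a ∨ w = b ∨ w = d :=
  nbr_of h3 h.ac.symm h.bc.symm h.cd h.ne h.ad.ne h.bd.ne w

theorem Four.nbr_d (h3 : Cub G) {a b c d : V} (h : Four G a b c d) (w : V) :
    G.Adj d w ↔ w = a ∨ w = b ∨ w = c :=
  h.swap'.nbr_c h3 w

theorem Four.unit (h3 : Cub G) {a b c d : V} (h : Four G a b c d) (x : V) :
    unt G x = unt G c ↔ x = a ∨ x = b ∨ x = c ∨ x = d := by
  constructor
  · intro hx
    have hcl : ∀ u ∈ ({a, b, c, d} : Set V), ∀ x, (triG G).Adj u x → x ∈ ({a, b, c, d} : Set V) := by
      intro u hu x hux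
      have hcN := h.nbr_c h3
      have hdN := h.nbr_d h3
      simp only [Set.mem_insert_iff, Set.mem_singleton_iff] at hu ⊢
      have side : ∀ a b : V, Four G a b c d → ∀ x, (triG G).Adj a x →
          x = a ∨ x = b ∨ x = c ∨ x = d := by
        intro a b h x hax
        obtain ⟨hax, w, haw, hxw⟩ := hax
        by_contra hcon
        push Not at hcon
        obtain ⟨e1, e2, e3, e4⟩ := hcon
        have hw := (nbr_of h3 h.ac h.ad hax h.cd.ne (Ne.symm e3) (Ne.symm e4) w).1 haw
        rcases hw with rfl | rfl | rfl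
        · have := (h.nbr_c h3 x).1 hxw.symm
          grind
        · have := (h.nbr_d h3 x).1 hxw.symm
          grind
        · exact hxw.ne rfl
      rcases hu with rfl | rfl | rfl | rfl
      · exact side u b h x hux
      · have := side u a h.swap x hux
        tauto
      · have := (hcN x).1 hux.1
        tauto
      · have := (hdN x).1 hux.1
        tauto
    have := closed_unit hcl (v := c) (x := x) (by simp) hx
    simpa using this
  · rintro (rfl | rfl | rfl | rfl)
    · exact unt_eq_of_tri h.ac h.ad h.cd
    · exact unt_eq_of_tri h.bc h.bd h.cd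
    · rfl
    · exact unt_eq_of_tri h.cd.symm h.ad.symm h.ac.symm

/-- a unit with three vertices -/
structure Three (G : SimpleGraph V) (a b c : V) : Prop where
  ab : G.Adj a b
  ac : G.Adj a c
  bc : G.Adj b c
  uab : ∀ w, G.Adj a w → G.Adj b w → w = c
  uac : ∀ w, G.Adj a w → G.Adj c w → w = b
  ubc : ∀ w, G.Adj b w → G.Adj c w → w = a

theorem Three.rot {a b c : V} (h : Three G a b c) : Three G b c a :=
  ⟨h.bc, h.ab.symm, h.ac.symm, h.ubc, fun w h1 h2 => h.uab w h2 h1, fun w h1 h2 => h.uac w h2 h1⟩

theorem Three.unit (h3 : Cub G) {a b c : V} (h : Three G a b c) (x : V) :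
    unt G x = unt G a ↔ x = a ∨ x = b ∨ x = c := by
  constructor
  · intro hx
    have side : ∀ a b c : V, Three G a b c → ∀ x, (triG G).Adj a x →
        x = a ∨ x = b ∨ x = c := by
      intro a b c h x hax
      obtain ⟨hax, w, haw, hxw⟩ := hax
      by_contra hcon
      push Not at hcon
      obtain ⟨e1, e2, e3⟩ := hcon
      have hw := (nbr_of h3 h.ab h.ac hax h.bc.ne (Ne.symm e2) (Ne.symm e3) w).1 haw
      rcases hw with rfl | rfl | rfl
      · exact e3 (h.uab x hax hxw.symm)
      · exact e2 (h.uac x hax hxw.symm)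
      · exact hxw.ne rfl
    have hcl : ∀ u ∈ ({a, b, c} : Set V), ∀ x, (triG G).Adj u x → x ∈ ({a, b, c} : Set V) := by
      intro u hu x hux
      simp only [Set.mem_insert_iff, Set.mem_singleton_iff] at hu ⊢
      rcases hu with rfl | rfl | rfl
      · exact side _ _ _ h x hux
      · have := side _ _ _ h.rot x hux
        tauto
      · have := side _ _ _ h.rot.rot x hux
        tauto
    have := closed_unit hcl (v := a) (x := x) (by simp) hx
    simpa using this
  · rintro (rfl | rfl | rfl)
    · rfl
    · exact unt_eq_of_tri h.ab.symm h.bc h.ac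
    · exact unt_eq_of_tri h.ac.symm h.bc.symm h.ab

theorem classify (h3 : Cub G) (hc : CF G) (v : V) :
    (∃ a b c d, Four G a b c d ∧ unt G v = unt G c) ∨ (∃ b c, Three G v b c) := by
  classical
  by_cases hfour : ∃ a b c d, Four G a b c d ∧ (v = a ∨ v = b ∨ v = c ∨ v = d)
  · obtain ⟨a, b, c, d, h, hv⟩ := hfour
    exact Or.inl ⟨a, b, c, d, h, (h.unit h3 v).2 hv⟩
  · right
    have main : ∀ x y, G.Adj v x → G.Adj v y → G.Adj x y → Three G v x y := by
      intro x y hx hy hxy
      refine ⟨hx, hy, hxy, ?_, ?_, ?_⟩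
      · intro w h1 h2
        by_contra hne
        exact hfour ⟨y, w, v, x, ⟨Ne.symm hne, hx, hy.symm, hxy.symm, h1.symm, h2.symm⟩, by simp⟩
      · intro w h1 h2
        by_contra hne
        exact hfour ⟨x, w, v, y, ⟨Ne.symm hne, hy, hx.symm, hxy, h1.symm, h2.symm⟩, by simp⟩
      · intro w h1 h2
        by_contra hne
        exact hfour ⟨v, w, x, y, ⟨Ne.symm hne, hxy, hx, hy, h1.symm, h2.symm⟩, by simp⟩
    obtain ⟨a, b, c, hab, hac, hbc, hN⟩ := h3 v
    have ha : G.Adj v a := (hN a).2 (by simp)
    have hb : G.Adj v b := (hN b).2 (by simp)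
    have hc' : G.Adj v c := (hN c).2 (by simp)
    rcases hc v a b c ha hb hc' hab hac hbc with h | h | h
    · exact ⟨a, b, main a b ha hb h⟩
    · exact ⟨a, c, main a c ha hc' h⟩
    · exact ⟨b, c, main b c hb hc' h⟩

/-- every vertex of a three-unit has a neighbour outside -/
theorem Three.out (h3 : Cub G) {a b c : V} (h : Three G a b c) :
    ∃ x, G.Adj a x ∧ unt G x ≠ unt G a := by
  obtain ⟨x, y, z, hxy, hxz, hyz, hN⟩ := h3 a
  have hb := (hN b).1 h.ab
  have hc := (hN c).1 h.ac
  have hbc := h.bc.ne
  have : ∃ w, G.Adj a w ∧ w ≠ b ∧ w ≠ c := by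
    by_cases h1 : x ≠ b ∧ x ≠ c
    · exact ⟨x, (hN x).2 (by simp), h1⟩
    · by_cases h2 : y ≠ b ∧ y ≠ c
      · exact ⟨y, (hN y).2 (by simp), h2⟩
      · exact ⟨z, (hN z).2 (by simp), by grind⟩
  obtain ⟨w, hw, h1, h2⟩ := this
  refine ⟨w, hw, fun heq => ?_⟩
  have := (h.unit h3 w).1 heq
  rcases this with h | h | h
  · exact hw.ne h.symm
  · exact h1 h
  · exact h2 h

/-- a four-unit: middle vertices have all their neighbours in the unit -/
theorem Four.mid (h3 : Cub G) {a b c d : V} (h : Four G a b c d) {x : V} (hx : G.Adj c x) :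
    unt G x = unt G c := by
  rw [h.unit h3]
  have := (h.nbr_c h3 x).1 hx
  tauto

end structural

section units

variable {V : Type*} [Finite V] {G : SimpleGraph V}

/-- a unit is of triangle type -/
def IsT (G : SimpleGraph V) (q : (triG G).ConnectedComponent) : Prop :=
  ∃ a b c, Three G a b c ∧ unt G a = q

omit [Finite V] in
theorem four_of_not (h3 : Cub G) (hc : CF G) {q : (triG G).ConnectedComponent}
    (hq : ¬ IsT G q) : ∃ a b c d, Four G a b c d ∧ unt G c = q := by
  obtain ⟨v, rfl⟩ : ∃ v, unt G v = q := by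
    induction q using SimpleGraph.ConnectedComponent.ind with
    | _ v => exact ⟨v, rfl⟩
  rcases classify h3 hc v with ⟨a, b, c, d, h, hv⟩ | ⟨b, c, h⟩
  · exact ⟨a, b, c, d, h, hv.symm⟩
  · exact absurd ⟨v, b, c, h, rfl⟩ hq

omit [Finite V] in
theorem out_four (h3 : Cub G) {a b c d : V} (h : Four G a b c d) {x y : V}
    (hx : unt G x = unt G c) (hxy : G.Adj x y) (hy : unt G y ≠ unt G x) : x = a ∨ x = b := by
  rcases (h.unit h3 x).1 hx with h1 | h1 | h1 | h1
  · exact Or.inl h1
  · exact Or.inr h1
  · subst h1; exact absurd (h.mid h3 hxy) hy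
  · subst h1; exact absurd (h.swap'.mid h3 hxy) hy

theorem hall (h3 : Cub G) (hc : CF G) (B : Set (triG G).ConnectedComponent) :
    ∃ f : {q // q ∈ B ∧ IsT G q} → (triG G).ConnectedComponent, Function.Injective f ∧
      ∀ q, ∃ u x, G.Adj u x ∧ unt G u = q.1 ∧ unt G x = f q ∧ unt G x ≠ unt G u := by
  classical
  have := Fintype.ofFinite V
  have : Finite (triG G).ConnectedComponent := Quot.finite _
  have := Fintype.ofFinite (triG G).ConnectedComponent
  set t : {q // q ∈ B ∧ IsT G q} → Finset (triG G).ConnectedComponent := fun q =>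
    Finset.univ.filter (fun q' => ∃ u x, G.Adj u x ∧ unt G u = q.1 ∧ unt G x = q' ∧
      unt G x ≠ unt G u) with ht
  have hall : ∀ s : Finset {q // q ∈ B ∧ IsT G q}, s.card ≤ (s.biUnion t).card := by
    intro s
    -- the vertices of the units of `s`
    set P : Finset V := Finset.univ.filter (fun u => ∃ q ∈ s, unt G u = q.1) with hP
    set X : Finset V := Finset.univ.filter (fun x => unt G x ∈ s.biUnion t ∧
      ∃ y, G.Adj x y ∧ unt G y ≠ unt G x) with hX
    have hPc : 3 * s.card ≤ P.card := by
      have h1 := Finset.mul_card_image_le_card_of_maps_to (f := unt G) (s := P)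
        (t := s.map (Function.Embedding.subtype _)) (by
          intro a ha
          obtain ⟨q, hq, haq⟩ := (Finset.mem_filter.1 ha).2
          rw [Finset.mem_map]
          exact ⟨q, hq, haq.symm⟩) 3 (by
          intro q hq
          rw [Finset.mem_map] at hq
          obtain ⟨q', hq', rfl⟩ := hq
          obtain ⟨a, b, c, h, haq⟩ := q'.2.2
          have hcard : ({a, b, c} : Finset V).card = 3 :=
            Finset.card_eq_three.2 ⟨a, b, c, h.ab.ne, h.ac.ne, h.bc.ne, rfl⟩
          rw [← hcard]
          apply Finset.card_le_card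
          intro x hx
          have hx' : x = a ∨ x = b ∨ x = c := by simpa using hx
          have := (h.unit h3 x).2 hx'
          rw [Finset.mem_filter, hP, Finset.mem_filter]
          exact ⟨⟨Finset.mem_univ _, q', hq', this.trans haq⟩, this.trans haq⟩)
      rwa [Finset.card_map] at h1
    have hXc : X.card ≤ 3 * (s.biUnion t).card := by
      apply Finset.card_le_mul_card_image_of_maps_to (f := unt G) (s := X)
        (t := s.biUnion t) (fun a ha => (Finset.mem_filter.1 ha).2.1) 3
      intro q _
      by_cases hq : IsT G q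
      · obtain ⟨a, b, c, h, haq⟩ := hq
        have hcard : ({a, b, c} : Finset V).card = 3 :=
          Finset.card_eq_three.2 ⟨a, b, c, h.ab.ne, h.ac.ne, h.bc.ne, rfl⟩
        rw [← hcard]
        apply Finset.card_le_card
        intro x hx
        have := (h.unit h3 x).1 ((Finset.mem_filter.1 hx).2.trans haq.symm)
        simpa using this
      · obtain ⟨a, b, c, d, h, hcq⟩ := four_of_not h3 hc hq
        refine le_trans (Finset.card_le_card (t := {a, b}) ?_) (le_trans Finset.card_le_two (by norm_num))
        intro x hx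
        rw [Finset.mem_filter, hX, Finset.mem_filter] at hx
        obtain ⟨⟨-, -, y, hxy, hy⟩, hxq⟩ := hx
        have := out_four h3 h (hxq.trans hcq.symm) hxy hy
        simpa using this
    have hPX : P.card ≤ X.card := by
      have hout : ∀ u ∈ P, ∃ x, G.Adj u x ∧ unt G x ≠ unt G u := by
        intro u hu
        obtain ⟨q, hq, huq⟩ := (Finset.mem_filter.1 hu).2
        obtain ⟨a, b, c, h, haq⟩ := q.2.2
        rcases (h.unit h3 u).1 (huq.trans haq.symm) with h1 | h1 | h1
        · subst h1; exact h.out h3
        · subst h1; exact h.rot.out h3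
        · subst h1; exact h.rot.rot.out h3
      choose! o ho1 ho2 using hout
      apply Finset.card_le_card_of_injOn o
      · intro u hu
        have hu' : u ∈ P := hu
        obtain ⟨q, hq, huq⟩ := (Finset.mem_filter.1 hu').2
        change o u ∈ X
        rw [hX, Finset.mem_filter]
        refine ⟨Finset.mem_univ _, ?_, u, (ho1 u hu').symm, (ho2 u hu').symm⟩
        rw [Finset.mem_biUnion]
        refine ⟨q, hq, ?_⟩
        rw [ht]
        simp only [Finset.mem_filter, Finset.mem_univ, true_and]
        exact ⟨u, o u, ho1 u hu', huq, rfl, ho2 u hu'⟩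
      · intro u hu v hv huv
        have hu' : u ∈ P := hu
        have hv' : v ∈ P := hv
        have h1 := ho1 u hu'
        have h2 := ho2 u hu'
        have h4 := ho1 v hv'
        have h5 := ho2 v hv'
        have huv' : o u = o v := huv
        rw [huv'] at h1 h2
        exact out_unique h3 hc h1.symm h2.symm h4.symm h5.symm
    omega
  obtain ⟨f, hf1, hf2⟩ := (Finset.all_card_le_biUnion_card_iff_exists_injective t).1 hall
  refine ⟨f, hf1, fun q => ?_⟩
  have := hf2 q
  rw [ht] at this
  simpa using this

theorem exists_system (h3 : Cub G) (hc : CF G) :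
    ∃ (B : Set (triG G).ConnectedComponent) (m : (triG G).ConnectedComponent → V),
      (∀ q, unt G (m q) = q) ∧
      (∀ x, x ≠ m (unt G x) → G.Adj (m (unt G x)) x) ∧
      (∀ q, ¬ IsT G q → ∃ a b d, Four G a b (m q) d) ∧
      (∀ u v, G.Adj u v → unt G u ∈ B → unt G v ∈ B → unt G u = unt G v) ∧
      (∀ q, ¬ IsT G q → q ∉ B → ∃ u x, G.Adj u x ∧ unt G u = q ∧ unt G x ≠ q ∧ unt G x ∈ B ∧
        ¬ IsT G (unt G x)) ∧
      (∀ q, q ∉ B → ∀ x, G.Adj (m q) x → unt G x ≠ q → unt G x ∈ B) ∧
      (∀ q ∈ B, ∀ q' ∈ B, ∀ x x', G.Adj (m q) x → G.Adj (m q') x' → unt G x = unt G x' →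
        unt G x ≠ q → unt G x' ≠ q' → q = q') := by
  classical
  have : Finite (triG G).ConnectedComponent := Quot.finite _
  obtain ⟨B, hB1, hB2⟩ := exists_kernel (Q := (triG G).ConnectedComponent)
    (fun q q' => ∃ u x, G.Adj u x ∧ unt G u = q ∧ unt G x = q' ∧ q ≠ q')
    (fun q q' ⟨u, x, h1, h2, h4, h5⟩ => ⟨x, u, h1.symm, h4, h2, h5.symm⟩)
    (fun q ⟨u, x, h1, h2, h4, h5⟩ => h5 rfl) (fun q => if IsT G q then 1 else 0)
  obtain ⟨f, hf1, hf2⟩ := hall h3 hc B
  have hm : ∀ q, ∃ y, unt G y = q ∧ (∀ x, unt G x = q → x ≠ y → G.Adj y x) ∧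
      (¬ IsT G q → ∃ a b d, Four G a b y d) ∧
      (q ∉ B → ∀ x, G.Adj y x → unt G x ≠ q → unt G x ∈ B) ∧
      (∀ (hq : q ∈ B ∧ IsT G q), ∀ x, G.Adj y x → unt G x ≠ q → unt G x = f ⟨q, hq⟩) := by
    intro q
    by_cases hT : IsT G q
    · obtain ⟨a, b, c, h, haq⟩ := hT
      have hadj : ∀ y, unt G y = q → ∀ x, unt G x = q → x ≠ y → G.Adj y x := by
        intro y hy x hx hxy
        have h1 := (h.unit h3 y).1 (hy.trans haq.symm)
        have h2 := (h.unit h3 x).1 (hx.trans haq.symm)
        have e1 := h.ab
        have e2 := h.ac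
        have e3 := h.bc
        have e4 := h.ab.symm
        have e5 := h.ac.symm
        have e6 := h.bc.symm
        rcases h1 with rfl | rfl | rfl <;> rcases h2 with rfl | rfl | rfl <;>
          first | assumption | exact absurd rfl hxy
      by_cases hqB : q ∈ B
      · obtain ⟨u, x, hux, huq, hxf, hxu⟩ := hf2 ⟨q, hqB, ⟨a, b, c, h, haq⟩⟩
        refine ⟨u, huq, hadj u huq, fun hn => absurd ⟨a, b, c, h, haq⟩ hn,
          fun hn => absurd hqB hn, ?_⟩
        intro hq y hy hyq
        have : y = x := out_unique h3 hc hy (by rw [huq]; exact hyq) hux hxu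
        rw [this, hxf]
      · obtain ⟨q', hq', ⟨u, x, hux, huq, hxq', hne⟩, -⟩ := hB2 q hqB
        refine ⟨u, huq, hadj u huq, fun hn => absurd ⟨a, b, c, h, haq⟩ hn, ?_,
          fun hq => absurd hq.1 hqB⟩
        intro _ y hy hyq
        have : y = x := out_unique h3 hc hy (by rw [huq]; exact hyq) hux
          (by rw [huq, hxq']; exact hne.symm)
        rw [this, hxq']
        exact hq'
    · obtain ⟨a, b, c, d, h, hcq⟩ := four_of_not h3 hc hT
      refine ⟨c, hcq, ?_, fun _ => ⟨a, b, d, h⟩, ?_, fun hq => absurd hq.2 hT⟩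
      · intro x hx hxc
        rcases (h.unit h3 x).1 (hx.trans hcq.symm) with h1 | h1 | h1 | h1
        · subst h1; exact h.ac.symm
        · subst h1; exact h.bc.symm
        · exact absurd h1 hxc
        · subst h1; exact h.cd
      · intro _ x hx hxq
        exact absurd ((h.mid h3 hx).trans hcq) hxq
  choose m hm1 hm2 hm3 hm4 hm5 using hm
  refine ⟨B, m, hm1, ?_, hm3, ?_, ?_, hm4, ?_⟩
  · intro x hx
    exact hm2 (unt G x) x rfl hx
  · intro u v huv hu hv
    by_contra hne
    exact hB1 _ hu _ hv ⟨u, v, huv, rfl, rfl, hne⟩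
  · intro q hq hqB
    obtain ⟨q', hq', ⟨u, x, hux, huq, hxq', hne⟩, hr⟩ := hB2 q hqB
    refine ⟨u, x, hux, huq, by rw [hxq']; exact hne.symm, by rw [hxq']; exact hq', ?_⟩
    rw [hxq']
    intro hT
    simp only [hq, hT, if_true, if_false] at hr
    omega
  · intro q hq q' hq' x x' hx hx' hxx' hxq hxq'
    have hT : IsT G q := by
      by_contra hT
      obtain ⟨a, b, d, h⟩ := hm3 q hT
      exact hxq ((h.mid h3 hx).trans (hm1 q))
    have hT' : IsT G q' := by
      by_contra hT
      obtain ⟨a, b, d, h⟩ := hm3 q' hT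
      exact hxq' ((h.mid h3 hx').trans (hm1 q'))
    have e1 := hm5 q ⟨hq, hT⟩ x hx hxq
    have e2 := hm5 q' ⟨hq', hT'⟩ x' hx' hxq'
    have := hf1 (e1.symm.trans (hxx'.trans e2))
    simpa using this

end units

theorem ite_cases (p q r : Prop) [Decidable p] [Decidable q] [Decidable r] :
    ((if p then (3 : Fin 4) else if q then 2 else if r then 0 else 1) = 0 → ¬ p ∧ ¬ q ∧ r) ∧
    ((if p then (3 : Fin 4) else if q then 2 else if r then 0 else 1) = 1 → ¬ p ∧ ¬ q ∧ ¬ r) ∧
    ((if p then (3 : Fin 4) else if q then 2 else if r then 0 else 1) = 2 → q) ∧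
    ((if p then (3 : Fin 4) else if q then 2 else if r then 0 else 1) = 3 → p) := by
  by_cases hp : p <;> by_cases hq : q <;> by_cases hr : r <;> simp [hp, hq, hr]

theorem core {V : Type*} [Finite V] {G : SimpleGraph V} (h3 : Cub G) (hc : CF G) :
    ∃ c : V → Fin 4, IsPacking G 1 {v | c v = 0} ∧ IsPacking G 1 {v | c v = 1} ∧
      IsPacking G 2 {v | c v = 2} ∧ IsPacking G 3 {v | c v = 3} := by
  classical
  have := Fintype.ofFinite V
  rcases isEmpty_or_nonempty V with hV | hV
  · exact ⟨fun _ => 0, fun u => (hV.false u).elim, fun u => (hV.false u).elim,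
      fun u => (hV.false u).elim, fun u => (hV.false u).elim⟩
  obtain ⟨B, m, hm1, hm2, hm3, hB, hBr, hm4, hm5⟩ := exists_system h3 hc
  choose! A A' D hF using hm3
  -- the two classes
  let X4 : Set V := {v | v = m (unt G v) ∧ unt G v ∈ B}
  let X3b : Set V := {v | v = m (unt G v) ∧ unt G v ∉ B}
  let X3a : Set V := {v | ¬ IsT G (unt G v) ∧ unt G v ∈ B ∧ v = D (unt G v) ∧
    ∀ w ∈ X3b, ¬ G.Adj w (A (unt G v)) ∧ ¬ G.Adj w (A' (unt G v))}
  have hout : ∀ {v x y}, G.Adj v x → unt G x ≠ unt G v → G.Adj v y → unt G y ≠ unt G v → x = y :=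
    fun h1 h2 h4 h5 => out_unique h3 hc h1 h2 h4 h5
  -- X4 is a 3-packing
  have hX4 : ∀ u ∈ X4, ∀ v ∈ X4, u ≠ v → ∀ w : G.Walk u v, w.length ≤ 3 → False := by
    rintro u ⟨hu1, hu2⟩ v ⟨hv1, hv2⟩ huv w hw
    have hne : unt G u ≠ unt G v := by
      intro h; apply huv; rw [hu1, hv1, h]
    cases w with
    | nil => exact huv rfl
    | cons h1 w =>
      rename_i x
      cases w with
      | nil => exact hne (hB _ _ h1 hu2 hv2)
      | cons h2 w =>
        rename_i y
        cases w with
        | nil =>
          by_cases hx1 : unt G x = unt G u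
          · exact hne (hx1.symm.trans (hB _ _ h2 (hx1 ▸ hu2) hv2))
          · by_cases hx2 : unt G x = unt G v
            · exact hne ((hB _ _ h1 hu2 (hx2 ▸ hv2)).trans hx2)
            · exact huv (hout h1.symm (Ne.symm hx1) h2 (Ne.symm hx2))
        | cons h4 w =>
          cases w with
          | nil =>
            by_cases hx1 : unt G x = unt G u
            · by_cases hy1 : unt G y = unt G u
              · exact hne (hy1.symm.trans (hB _ _ h4 (hy1 ▸ hu2) hv2))
              · by_cases hy2 : unt G y = unt G v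
                · exact hy1 ((hB _ _ h2 (hx1 ▸ hu2) (hy2 ▸ hv2)).symm.trans hx1)
                · have := hout h2.symm (by rw [hx1]; exact Ne.symm hy1) h4 (Ne.symm hy2)
                  exact hne (by rw [← hx1, this])
            · have hx2 : unt G x ≠ unt G v := fun hx2 =>
                hx1 (hB _ _ h1 hu2 (hx2 ▸ hv2)).symm
              by_cases hxy : unt G x = unt G y
              · have := hm5 (unt G u) hu2 (unt G v) hv2 x y (by rw [← hu1]; exact h1)
                  (by rw [← hv1]; exact h4.symm) hxy hx1 (by rw [← hxy]; exact hx2)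
                exact hne this
              · have := hout h1.symm (Ne.symm hx1) h2 (Ne.symm hxy)
                subst this
                exact hne (hB _ _ h4 hu2 hv2)
          | cons h5 w => simp only [SimpleGraph.Walk.length_cons] at hw; omega
  -- facts on X3
  have hmD : ∀ q, ¬ IsT G q → unt G (D q) = q := by
    intro q hq
    have h := hF q hq
    exact ((h.unit h3 (D q)).2 (by simp)).trans (hm1 q)
  have hDnb : ∀ v ∈ X3a, ∀ x, G.Adj v x → unt G x = unt G v := by
    rintro v ⟨hv1, hv2, hv4, hv5⟩ x hx
    have h := hF _ hv1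
    rw [hv4] at hx
    have := h.swap'.mid h3 hx
    rw [this, hmD _ hv1]
  have hX3 : ∀ u ∈ X3b ∪ X3a, ∀ v ∈ X3b ∪ X3a, u ≠ v → ∀ w : G.Walk u v, w.length ≤ 2 → False := by
    have hbb : ∀ u ∈ X3b, ∀ v ∈ X3b, u ≠ v → ∀ w : G.Walk u v, w.length ≤ 2 → False := by
      rintro u ⟨hu1, hu2⟩ v ⟨hv1, hv2⟩ huv w hw
      have hne : unt G u ≠ unt G v := by
        intro h; apply huv; rw [hu1, hv1, h]
      cases w with
      | nil => exact huv rfl
      | cons h1 w =>
        rename_i x
        cases w with
        | nil =>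
          exact hv2 (hm4 _ hu2 v (by rw [← hu1]; exact h1) (Ne.symm hne))
        | cons h2 w =>
          cases w with
          | nil =>
            by_cases hx1 : unt G x = unt G u
            · have := hm4 _ hv2 x (by rw [← hv1]; exact h2.symm) (by rw [hx1]; exact hne)
              exact hu2 (hx1 ▸ this)
            · by_cases hx2 : unt G x = unt G v
              · have := hm4 _ hu2 x (by rw [← hu1]; exact h1) hx1
                exact hv2 (hx2 ▸ this)
              · exact huv (hout h1.symm (Ne.symm hx1) h2 (Ne.symm hx2))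
          | cons h4 w => simp only [SimpleGraph.Walk.length_cons] at hw; omega
    have hba : ∀ u ∈ X3b, ∀ v ∈ X3a, ∀ w : G.Walk v u, w.length ≤ 2 → False := by
      rintro u hu v hv w hw
      have hnb := hDnb v hv
      have hu' := hu
      obtain ⟨hu1, hu2⟩ := hu'
      obtain ⟨hv1, hv2, hv4, hv5⟩ := hv
      cases w with
      | nil => exact hu2 hv2
      | cons h1 w =>
        rename_i x
        cases w with
        | nil => exact hu2 ((hnb _ h1).symm ▸ hv2)
        | cons h2 w =>
          cases w with
          | nil =>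
            have h := hF _ hv1
            rw [hv4] at h1
            rcases (h.nbr_d h3 x).1 h1 with h5 | h5 | h5
            · rw [h5] at h2
              exact (hv5 u hu).1 h2.symm
            · rw [h5] at h2
              exact (hv5 u hu).2 h2.symm
            · rw [h5] at h2
              have := h.mid h3 h2
              rw [hm1] at this
              exact hu2 (this ▸ hv2)
          | cons h4 w => simp only [SimpleGraph.Walk.length_cons] at hw; omega
    have haa : ∀ u ∈ X3a, ∀ v ∈ X3a, u ≠ v → ∀ w : G.Walk u v, w.length ≤ 2 → False := by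
      rintro u hu v hv huv w hw
      have hnu := hDnb u hu
      have hnv := hDnb v hv
      have hne : unt G u ≠ unt G v := by
        intro h; apply huv; rw [hu.2.2.1, hv.2.2.1, h]
      cases w with
      | nil => exact huv rfl
      | cons h1 w =>
        rename_i x
        cases w with
        | nil => exact hne (hnu _ h1).symm
        | cons h2 w =>
          cases w with
          | nil => exact hne ((hnu _ h1).symm.trans (hnv _ h2.symm))
          | cons h4 w => simp only [SimpleGraph.Walk.length_cons] at hw; omega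
    rintro u (hu | hu) v (hv | hv) huv w hw
    · exact hbb u hu v hv huv w hw
    · exact hba u hu v hv w.reverse (by simpa using hw)
    · exact hba v hv u hu w hw
    · exact haa u hu v hv huv w hw
  -- orientation of the four-units
  have hor : ∀ q, ¬ IsT G q → ∃ a b, Four G a b (m q) (D q) ∧
      (q ∉ B → ∃ x, G.Adj a x ∧ unt G x ≠ q ∧ unt G x ∈ B ∧ ¬ IsT G (unt G x)) ∧
      (q ∈ B → D q ∉ X3a → ∃ w ∈ X3b, G.Adj w b) := by
    intro q hq
    have h := hF q hq
    by_cases hqB : q ∈ B
    · by_cases hD : D q ∈ X3a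
      · exact ⟨A q, A' q, h, fun hn => absurd hqB hn, fun _ hn => absurd hD hn⟩
      · have : ∃ w ∈ X3b, G.Adj w (A q) ∨ G.Adj w (A' q) := by
          by_contra hcon
          push Not at hcon
          apply hD
          refine ⟨by rw [hmD q hq]; exact hq, by rw [hmD q hq]; exact hqB, by rw [hmD q hq], ?_⟩
          rw [hmD q hq]
          exact hcon
        obtain ⟨w, hw, hw2 | hw2⟩ := this
        · exact ⟨A' q, A q, h.swap, fun hn => absurd hqB hn, fun _ _ => ⟨w, hw, hw2⟩⟩
        · exact ⟨A q, A' q, h, fun hn => absurd hqB hn, fun _ _ => ⟨w, hw, hw2⟩⟩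
    · obtain ⟨u, x, hux, huq, hxq, hxB, hxT⟩ := hBr q hq hqB
      rcases out_four h3 h (huq.trans (hm1 q).symm) hux (by rw [huq]; exact hxq) with h1 | h1
      · subst h1
        exact ⟨A q, A' q, h, fun _ => ⟨x, hux, hxq, hxB, hxT⟩, fun hn => absurd hn hqB⟩
      · subst h1
        exact ⟨A' q, A q, h.swap, fun _ => ⟨x, hux, hxq, hxB, hxT⟩, fun hn => absurd hn hqB⟩
  choose! a b hab1 hab2 hab3 using hor
  -- the rank function
  let r : V → ℕ := fun v => if IsT G (unt G v) then 0 else
    if v = D (unt G v) then (if unt G v ∈ B then 5 else 2) else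
    if v = a (unt G v) then (if unt G v ∈ B then 4 else 3) else
    (if unt G v ∈ B then 6 else 1)
  have hr0 : ∀ v, r v = 0 ↔ IsT G (unt G v) := by
    intro v
    by_cases hT : IsT G (unt G v)
    · simp only [r, if_pos hT, hT]
    · simp only [r, if_neg hT, hT, iff_false]
      split_ifs <;> norm_num
  let adj' : V → V → Prop := fun u v => G.Adj u v ∧ u ≠ m (unt G u) ∧ v ≠ m (unt G v) ∧
    u ∉ X3a ∧ v ∉ X3a
  have hcol : ∃ k : V → Bool, ∀ x y, adj' x y → k x ≠ k y := by
    apply rank_color adj' (fun x y h => ⟨h.1.symm, h.2.2.1, h.2.1, h.2.2.2.2, h.2.2.2.1⟩) r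
    · -- triangle units
      obtain ⟨k, hk⟩ := matchings_color (Finset.univ.filter
          (fun v : V => IsT G (unt G v) ∧ v ≠ m (unt G v))).card
        (Finset.univ.filter (fun v : V => IsT G (unt G v) ∧ v ≠ m (unt G v))) le_rfl
        (fun u v => G.Adj u v ∧ unt G u = unt G v) (fun u v => G.Adj u v ∧ unt G u ≠ unt G v)
        (fun u v h => ⟨h.1.symm, h.2.symm⟩) (fun u v h => ⟨h.1.symm, h.2.symm⟩)
        (fun u h => h.1.ne rfl)
        (by
          intro x hx y hy z hz hxy hxz
          simp only [Finset.mem_filter, Finset.mem_univ, true_and] at hx hy hz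
          obtain ⟨⟨p, q, s, h, hpq⟩, hxm⟩ := hx
          have e0 := (h.unit h3 x).1 hpq.symm
          have e1 := (h.unit h3 y).1 (hxy.2.symm.trans hpq.symm)
          have e2 := (h.unit h3 z).1 (hxz.2.symm.trans hpq.symm)
          have e3 := (h.unit h3 (m (unt G x))).1 ((hm1 _).trans hpq.symm)
          have e4 : y ≠ m (unt G x) := by rw [hxy.2]; exact hy.2
          have e5 : z ≠ m (unt G x) := by rw [hxz.2]; exact hz.2
          have e6 := hxy.1.ne
          have e7 := hxz.1.ne
          grind)
        (by
          intro x hx y hy z hz hxy hxz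
          exact hout hxy.1 hxy.2.symm hxz.1 hxz.2.symm)
        (fun u _ h => h.2 rfl)
      refine ⟨k, fun x y hxy hx hy => ?_⟩
      rw [hr0] at hx hy
      apply hk x (by simp [hx, hxy.2.1]) y (by simp [hy, hxy.2.2.1])
      by_cases h : unt G x = unt G y
      · exact Or.inl ⟨hxy.1, h⟩
      · exact Or.inr ⟨hxy.1, h⟩
    · -- the other units
      intro v hv x y hvx hvy hx hy
      have hT : ¬ IsT G (unt G v) := fun h => hv ((hr0 v).2 h)
      have h := hab1 _ hT
      have hvm : v ≠ m (unt G v) := hvx.2.1
      have huD : unt G (D (unt G v)) = unt G v := hmD _ hT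
      have hua : unt G (a (unt G v)) = unt G v := by
        have := (h.unit h3 (a (unt G v))).2 (by simp)
        rw [this, hm1]
      have hub : unt G (b (unt G v)) = unt G v := by
        have := (h.unit h3 (b (unt G v))).2 (by simp)
        rw [this, hm1]
      have haD : a (unt G v) ≠ D (unt G v) := h.ad.ne
      have hbD : b (unt G v) ≠ D (unt G v) := h.bd.ne
      have hba : b (unt G v) ≠ a (unt G v) := h.ne.symm
      have hrD : r (D (unt G v)) = if unt G v ∈ B then 5 else 2 := by
        simp only [r, huD, hT, if_false, if_true]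
      have hra : r (a (unt G v)) = if unt G v ∈ B then 4 else 3 := by
        simp only [r, hua, hT, if_false, haD, if_true]
      have hrb : r (b (unt G v)) = if unt G v ∈ B then 6 else 1 := by
        simp only [r, hub, hT, if_false, hbD, hba]
      have hvu := (h.unit h3 v).1 (hm1 _).symm
      rcases hvu with h1 | h1 | h1 | h1
      · -- `v = a`
        have hrv : r v = if unt G v ∈ B then 4 else 3 := by
          conv_lhs => rw [h1]
          exact hra
        have hac : G.Adj v (m (unt G v)) := by
          conv_lhs => rw [h1]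
          exact h.ac
        have had : G.Adj v (D (unt G v)) := by
          conv_lhs => rw [h1]
          exact h.ad
        have nm : ∀ z, adj' v z → z ≠ m (unt G v) := by
          rintro z hz rfl
          exact hz.2.2.1 (by rw [hm1])
        by_cases hqB : unt G v ∈ B
        · have nD : ∀ z, adj' v z → r z ≤ r v → z ≠ D (unt G v) := by
            rintro z hz hle rfl
            rw [hrD, hrv] at hle
            simp [hqB] at hle
          exact nbr_third h3 hac had h.cd.ne hvx.1 hvy.1 (nm x hvx) (nD x hvx hx) (nm y hvy)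
            (nD y hvy hy)
        · obtain ⟨z, hz1, hz2, hz3, hz4⟩ := hab2 _ hT hqB
          rw [← h1] at hz1
          have hrz : 4 ≤ r z := by
            simp only [r]
            simp only [hz4, hz3, if_true, if_false]
            split_ifs <;> omega
          have key : ∀ w, adj' v w → r w ≤ r v → w = D (unt G v) := by
            intro w hw hle
            by_contra hne
            have hzm : z ≠ m (unt G v) := by
              rintro rfl; exact hz2 (hm1 _)
            have hzD : z ≠ D (unt G v) := by
              rintro rfl; exact hz2 huD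
            have := nbr_third h3 hac had h.cd.ne hw.1 hz1 (nm w hw) hne hzm hzD
            subst this
            rw [hrv] at hle
            simp only [hqB, if_false] at hle
            omega
          rw [key x hvx hx, key y hvy hy]
      · -- `v = b`
        have hrv : r v = if unt G v ∈ B then 6 else 1 := by
          conv_lhs => rw [h1]
          exact hrb
        have hbc : G.Adj v (m (unt G v)) := by
          conv_lhs => rw [h1]
          exact h.bc
        have hbd : G.Adj v (D (unt G v)) := by
          conv_lhs => rw [h1]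
          exact h.bd
        have nm : ∀ z, adj' v z → z ≠ m (unt G v) := by
          rintro z hz rfl
          exact hz.2.2.1 (by rw [hm1])
        by_cases hqB : unt G v ∈ B
        · by_cases hD : D (unt G v) ∈ X3a
          · have nD : ∀ z, adj' v z → z ≠ D (unt G v) := by
              rintro z hz rfl
              exact hz.2.2.2.2 hD
            exact nbr_third h3 hbc hbd h.cd.ne hvx.1 hvy.1 (nm x hvx) (nD x hvx) (nm y hvy)
              (nD y hvy)
          · obtain ⟨w, hw, hwb⟩ := hab3 _ hT hqB hD
            rw [← h1] at hwb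
            have hwu : unt G w ≠ unt G v := fun h => hw.2 (h ▸ hqB)
            have key : ∀ z, adj' v z → z = D (unt G v) := by
              intro z hz
              by_contra hne
              have hwm : w ≠ m (unt G v) := by
                rintro rfl; exact hwu (hm1 _)
              have hwD : w ≠ D (unt G v) := by
                rintro rfl; exact hwu huD
              have := nbr_third h3 hbc hbd h.cd.ne hz.1 hwb.symm (nm z hz) hne hwm hwD
              subst this
              exact hz.2.2.1 hw.1
            rw [key x hvx, key y hvy]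
        · have nD : ∀ z, adj' v z → r z ≤ r v → z ≠ D (unt G v) := by
            rintro z hz hle rfl
            rw [hrD, hrv] at hle
            simp [hqB] at hle
          exact nbr_third h3 hbc hbd h.cd.ne hvx.1 hvy.1 (nm x hvx) (nD x hvx hx) (nm y hvy)
            (nD y hvy hy)
      · exact absurd h1 hvm
      · -- `v = D`
        have hrv : r v = if unt G v ∈ B then 5 else 2 := by
          conv_lhs => rw [h1]
          exact hrD
        have nm : ∀ z, adj' v z → z ≠ m (unt G v) := by
          rintro z hz rfl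
          exact hz.2.2.1 (by rw [hm1])
        have hnb : ∀ z, adj' v z → z = a (unt G v) ∨ z = b (unt G v) := by
          intro z hz
          have hz1 := hz.1
          rw [h1] at hz1
          rcases (h.nbr_d h3 z).1 hz1 with e | e | e
          · exact Or.inl e
          · exact Or.inr e
          · exact absurd e (nm z hz)
        by_cases hqB : unt G v ∈ B
        · have key : ∀ z, adj' v z → r z ≤ r v → z = a (unt G v) := by
            intro z hz hle
            rcases hnb z hz with e | e
            · exact e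
            · rw [e, hrb, hrv] at hle
              simp [hqB] at hle
          rw [key x hvx hx, key y hvy hy]
        · have key : ∀ z, adj' v z → r z ≤ r v → z = b (unt G v) := by
            intro z hz hle
            rcases hnb z hz with e | e
            · rw [e, hra, hrv] at hle
              simp [hqB] at hle
            · exact e
          rw [key x hvx hx, key y hvy hy]
    · intro x hx
      exact hx.1.ne rfl
  obtain ⟨k, hk⟩ := hcol
  have hn : ∀ u v, G.Adj u v → u ∉ X4 → v ∉ X4 → u ∉ X3b ∪ X3a → v ∉ X3b ∪ X3a → k u ≠ k v := by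
    intro u v hadj hu1 hv1 hu2 hv2
    refine hk u v ⟨hadj, ?_, ?_, fun h => hu2 (Or.inr h), fun h => hv2 (Or.inr h)⟩
    · intro h
      by_cases hB' : unt G u ∈ B
      · exact hu1 ⟨h, hB'⟩
      · exact hu2 (Or.inl ⟨h, hB'⟩)
    · intro h
      by_cases hB' : unt G v ∈ B
      · exact hv1 ⟨h, hB'⟩
      · exact hv2 (Or.inl ⟨h, hB'⟩)
  have one : ∀ u v, u ≠ v → ¬ G.Adj u v → ((1 : ℕ) : ℕ∞) < G.edist u v := by
    intro u v huv hadj
    apply lt_edist
    intro w hw
    cases w with
    | nil => exact huv rfl
    | cons h1 w =>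
      cases w with
      | nil => exact hadj h1
      | cons h2 w => simp only [SimpleGraph.Walk.length_cons] at hw; omega
  refine ⟨fun v => if v ∈ X4 then 3 else if v ∈ X3b ∪ X3a then 2 else if k v = true then 0 else 1,
    ?_, ?_, ?_, ?_⟩
  · intro u hu v hv huv
    obtain ⟨hu1, hu2, hu3⟩ := (ite_cases _ _ _).1 hu
    obtain ⟨hv1, hv2, hv3⟩ := (ite_cases _ _ _).1 hv
    exact one u v huv fun hadj => hn u v hadj hu1 hv1 hu2 hv2 (by rw [hu3, hv3])
  · intro u hu v hv huv
    obtain ⟨hu1, hu2, hu3⟩ := (ite_cases _ _ _).2.1 hu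
    obtain ⟨hv1, hv2, hv3⟩ := (ite_cases _ _ _).2.1 hv
    refine one u v huv fun hadj => hn u v hadj hu1 hv1 hu2 hv2 ?_
    rw [Bool.eq_false_of_not_eq_true hu3, Bool.eq_false_of_not_eq_true hv3]
  · intro u hu v hv huv
    exact lt_edist (hX3 u ((ite_cases _ _ _).2.2.1 hu) v ((ite_cases _ _ _).2.2.1 hv) huv)
  · intro u hu v hv huv
    exact lt_edist (hX4 u ((ite_cases _ _ _).2.2.2 hu) v ((ite_cases _ _ _).2.2.2 hv) huv)

/-- Every finite claw-free cubic graph is (1,1,2,3)-packing colourable. -/
theorem result {V : Type*} [Fintype V] (G : SimpleGraph V) [DecidableRel G.Adj]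
    (hcubic : G.IsRegularOfDegree 3) (hclaw : IsClawFree G) :
    ∃ c : V → Fin 4, IsPacking G 1 {v | c v = 0} ∧ IsPacking G 1 {v | c v = 1} ∧
      IsPacking G 2 {v | c v = 2} ∧ IsPacking G 3 {v | c v = 3} :=
  core (Cub_of_regular hcubic) (CF_of_isClawFree hclaw)

end Pool.Agent.Results.MP_b5f1b3_co.ClawFree
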